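import Pool.Agent.Work.MP_92a29d_co_h93.Core

/-! Clauses (generated). -/

set_option autoImplicit false
set_option maxRecDepth 100000

namespace Pool.Agent.Work.MP_92a29d_cert.g4431E1_J0

open Pool.Agent.Work.MP_92a29d_co_h93

noncomputable def d0 : Tr := (.node (.node (.leaf (nat_lit 0xd99c5acda00956fec9283c40f95e53023450b910c563c4275e4337989399252241ae56783ebeabca2502dccc00be6267b4feeac705ddaa792118d8a34a700dfeb3d1c59de0983225e367a18963b0fe5d468c3415990e43e35a5348882c1c4147dbb562830fae2fdabc320925d33001b0882cc2d7d637dee1e59d3704698a684b01a84590350aef94e04e8ba94421d2cebe92b4f3798103e1a751937424f7ceb1137669ab205d5d7040f6063e07c107810741070106c106810641060105c105810541050104c104810441040103c103810341030102c102810241020101c101810141010100c1008100410001)) (.leaf (nat_lit 0x7d0cd1097b4d2706d776c00000000000000000000000000000000000000000000000000000000000000000000000000000000000000000000000000000000000000000000008000410001))) (.node (.leaf (nat_lit 0x449b6e8811f805403a0a90367e8a110ca3b9dafa8e1afb373148d5268e5613657318c02d597e00ff948dcde509e8d69cf662ee347fe87530fe478fa0ac5a4ec606b36035c102bf685f073e550c96eacb8a45843e95e90f276498882074b21802e7abb43f44fe6fb59dfc674e0c9b44c36ac8825e63514671c8eb50d28f2a7e3ec48acac80df0e2ccee7add21f7ebcd5145f757db399610adf7cefaec79a3e84498e82db8a1e1ed3d4f1cd81307c107810741070106c106810641060105c105810541050104c104810441040103c103810341030102c102810241020101c101810141010100c1008100410001))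 (.leaf (nat_lit 0))))

end Pool.Agent.Work.MP_92a29d_cert.g4431E1_J0
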