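import Pool.Agent.Work.MP_92a29d_cert.g4431E1_J0.T

/-! Proof steps (generated). -/

set_option autoImplicit false
set_option maxRecDepth 100000

namespace Pool.Agent.Work.MP_92a29d_cert.g4431E1_J0

open Pool.Agent.Work.MP_92a29d_co_h93

noncomputable def I0 : Tr := (.node (.leaf (nat_lit 0x390003800037000360003500034000330003200031000300002f0002e0002d0002c0002b0002a000290002800027000260002500024000230002200021000200001f0001e0001d0001c0001b0001a000190001800017000160001500014000130001200011000100000f0000e0000d0000c0000b0000a00009000080000700006000050000400003000020000100000)) (.leaf (nat_lit 0)))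
noncomputable def S0 : Sg := .cons (nat_lit 9) (nat_lit 0x20a6b50a399955187a7ed7b4c8014026100edd1984000750085f0d2ea94e735e225fa9f1a04e9f20f6eae887047d94a7e88e3b36a1b30e450022043ca888437416c72fb611a214b093e82a1d8c93085cde81644f8054047f2ab62b79d2a992ec87a5ea80008054c32d1986844f19ef5950bc8200000c1fbd1a07fb10d505f01de994c613034efd687f77d5bbcf458e00601417cfccedbe388a95d840783ed2c448a7d25040056028f09b687b381006300) (.nil)
theorem ok0 : run (Dm L I0 (nat_lit 58) (nat_lit 58)) K0 A0 S0 (nat_lit 58) = true := by
  decide +kernel
theorem sz0 : (nat_lit 67) = Nat.add (nat_lit 58) S0.size := by decide +kernel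


end Pool.Agent.Work.MP_92a29d_cert.g4431E1_J0
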