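import Pool.Agent.Work.MP_92a29d_co_h93.Sound
import Pool.Agent.Work.MP_92a29d_cert.g4431E1_J0.T
import Pool.Agent.Work.MP_92a29d_co_h45.OM_g4431E1_J0

/-! The original clauses (generated). -/

set_option autoImplicit false
set_option maxRecDepth 100000

namespace Pool.Agent.Work.MP_92a29d_cert.g4431E1_J0

open Pool.Agent.Work.MP_92a29d_co_h93

noncomputable def C : Tr := (.node (.leaf (nat_lit 0x27000727000318010d18011d18007d18008d1801101800ff1800ee1800dd18008818007718006618005517130f1711dd1712ed1710ab17097f17084d17095d17071b1601101600ff1600dd1600881600771600551411dd1412ed14084d14095d1112fe1111cc11096e11083c1012fe1011cc10096e10083c0c08c40c083c0c072c0c08bc0c08340c07240c08b40c082c0c071c0c035c0a01100a00ff0a00ee0a00dd0a00880a00770a00660a0055)) (.leaf (nat_lit 0)))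

theorem okO : origs Pool.Agent.Work.MP_92a29d_co_h45.OM_g4431E1_J0.OM L C A0 (nat_lit 58) = true := by decide +kernel

end Pool.Agent.Work.MP_92a29d_cert.g4431E1_J0
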